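import Mathlib

/-!
# A Euclidean subfield of the reals whose set of cubes is not Borel

Helper file for problem MP_37207a_lc.
-/

namespace Pool.Agent.Q302.NB

open Cardinal Polynomial

/-! ## Part 1: `t ∉ E(t³)` for `t` transcendental over `E` -/

theorem not_mem_adjoin_cube (E : IntermediateField ℚ ℝ) (t : ℝ) (ht : Transcendental E t) :
    t ∉ IntermediateField.adjoin E {t ^ 3} := by
  intro h
  rw [IntermediateField.mem_adjoin_simple_iff] at h
  obtain ⟨p, q, h⟩ := h
  have hinj := (transcendental_iff_injective).1 ht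
  have ht0 : t ≠ 0 := by
    intro h0
    apply ht
    rw [h0]
    exact isAlgebraic_zero
  have hq : aeval (t ^ 3) q ≠ 0 := by
    intro h0
    rw [h0, div_zero] at h
    exact ht0 h
  have hq0 : q ≠ 0 := by
    rintro rfl
    simp at hq
  have h1 : t * aeval (t ^ 3) q = aeval (t ^ 3) p := by
    rw [eq_div_iff hq] at h
    exact h
  have h2 : aeval t (X * expand E 3 q) = aeval t (expand E 3 p) := by
    rw [map_mul, aeval_X, expand_aeval, expand_aeval, h1]
  have h3 : X * expand E 3 q = expand E 3 p := hinj h2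
  have h4 := congrArg natDegree h3
  have hq1 : expand E 3 q ≠ 0 := by
    intro h0
    exact hq0 ((expand_eq_zero (by norm_num)).1 h0)
  rw [natDegree_X_mul hq1, natDegree_expand, natDegree_expand] at h4
  omega

/-! ## Part 2: many algebraically independent reals -/

theorem card_basis {ι : Type} (v : ι → ℝ) (hv : IsTranscendenceBasis ℚ v) : 𝔠 ≤ #ι := by
  have h1 : #ℝ ≤ max (max (#ℚ) (#ι)) ℵ₀ := by
    have : Algebra.IsAlgebraic (Algebra.adjoin ℚ (Set.range v)) ℝ := hv.isAlgebraic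
    calc
      #ℝ ≤ max #(Algebra.adjoin ℚ (Set.range v)) ℵ₀ := by
        simpa using Algebra.IsAlgebraic.cardinalMk_le_max (Algebra.adjoin ℚ (Set.range v)) ℝ
      _ = max #(MvPolynomial ι ℚ) ℵ₀ := by
        rw [Cardinal.mk_congr hv.1.aevalEquiv.toEquiv]
      _ ≤ max (max (max (#ℚ) (#ι)) ℵ₀) ℵ₀ := by
        apply max_le_max _ le_rfl
        simpa using MvPolynomial.cardinalMk_le_max_lift (σ := ι) (R := ℚ)
      _ = _ := by simp
  rw [Cardinal.mk_real] at h1
  by_contra h
  push Not at h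
  have : max (max (#ℚ) (#ι)) ℵ₀ < 𝔠 := by
    apply max_lt _ aleph0_lt_continuum
    apply max_lt _ h
    exact lt_of_le_of_lt mk_le_aleph0 aleph0_lt_continuum
  exact absurd h1 (not_le.2 this)


/-! ## Part 3: the base field and the maximal extension -/

section Fields

variable {ι : Type} (v : ι → ℝ)

/-- The generators: all cubes `v i ^ 3` and those `v i` with `i ∈ A`. -/
def gens (A : Set ι) : Set ℝ := {x | (∃ i ∈ A, x = v i) ∨ ∃ i, x = v i ^ 3}

/-- `M` contains the generators and no `v j`, `j ∉ A`. -/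
def Good (A : Set ι) (M : Subfield ℝ) : Prop := gens v A ⊆ M ∧ ∀ j, j ∉ A → v j ∉ M

theorem good_closure (hv : AlgebraicIndependent ℚ v) (A : Set ι) :
    Good v A (Subfield.closure (gens v A)) := by
  refine ⟨Subfield.subset_closure, fun j hj h => ?_⟩
  set E := IntermediateField.adjoin ℚ (v '' {i | i ≠ j}) with hE
  have ht : Transcendental E (v j) :=
    IntermediateField.transcendental_adjoin_iff.2 (hv.transcendental_adjoin (by simp))
  refine not_mem_adjoin_cube E (v j) ht ?_
  set L := IntermediateField.adjoin E {v j ^ 3} with hL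
  have hle : Subfield.closure (gens v A) ≤ L.toSubfield := by
    rw [Subfield.closure_le]
    have hmem : ∀ i, i ≠ j → v i ∈ L := by
      intro i hi
      have h1 : v i ∈ E := IntermediateField.subset_adjoin _ _ ⟨i, hi, rfl⟩
      exact L.algebraMap_mem ⟨v i, h1⟩
    rintro x (⟨i, hi, rfl⟩ | ⟨i, rfl⟩)
    · exact hmem i (by rintro rfl; exact hj hi)
    · by_cases hij : i = j
      · subst hij
        exact IntermediateField.mem_adjoin_simple_self _ _
      · exact pow_mem (hmem i hij) 3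
  exact hle h

theorem exists_maximal (hv : AlgebraicIndependent ℚ v) (A : Set ι) :
    ∃ M : Subfield ℝ, Maximal (Good v A) M := by
  have ih : ∀ c ⊆ {M | Good v A M}, IsChain (· ≤ ·) c → ∀ y ∈ c,
      ∃ ub ∈ {M | Good v A M}, ∀ z ∈ c, z ≤ ub := by
    intro c hc hch y hy
    refine ⟨sSup c, ⟨?_, ?_⟩, fun z hz => le_sSup hz⟩
    · exact fun x hx => (le_sSup hy : y ≤ sSup c) ((hc hy).1 hx)
    · intro j hj h
      rw [Subfield.mem_sSup_of_directedOn ⟨y, hy⟩ hch.directedOn] at h
      obtain ⟨M, hM, hjM⟩ := h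
      exact (hc hM).2 j hj hjM
  obtain ⟨M, -, hM⟩ := zorn_le_nonempty₀ {M | Good v A M} ih _ (good_closure v hv A)
  exact ⟨M, hM⟩

/-- The quadratic extension `K(s)`, `s² ∈ K`, `s ∉ K`. -/
def quad (K : Subfield ℝ) (s : ℝ) (hs : s ∉ K) (hs2 : s ^ 2 ∈ K) : Subfield ℝ where
  carrier := {x | ∃ u ∈ K, ∃ w ∈ K, x = u + w * s}
  mul_mem' := by
    rintro _ _ ⟨u, hu, w, hw, rfl⟩ ⟨u', hu', w', hw', rfl⟩
    refine ⟨u * u' + w * w' * s ^ 2, ?_, u * w' + w * u', ?_, by ring⟩
    · exact add_mem (mul_mem hu hu') (mul_mem (mul_mem hw hw') hs2)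
    · exact add_mem (mul_mem hu hw') (mul_mem hw hu')
  one_mem' := ⟨1, one_mem _, 0, zero_mem _, by ring⟩
  add_mem' := by
    rintro _ _ ⟨u, hu, w, hw, rfl⟩ ⟨u', hu', w', hw', rfl⟩
    exact ⟨u + u', add_mem hu hu', w + w', add_mem hw hw', by ring⟩
  zero_mem' := ⟨0, zero_mem _, 0, zero_mem _, by ring⟩
  neg_mem' := by
    rintro _ ⟨u, hu, w, hw, rfl⟩
    exact ⟨-u, neg_mem hu, -w, neg_mem hw, by ring⟩
  inv_mem' := by
    rintro _ ⟨u, hu, w, hw, rfl⟩
    by_cases hw0 : w = 0
    · subst hw0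
      exact ⟨u⁻¹, inv_mem hu, 0, zero_mem _, by simp⟩
    · have h1 : u + w * s ≠ 0 := by
        intro h
        apply hs
        have : s = -u / w := by
          field_simp
          linarith
        rw [this]
        exact div_mem (neg_mem hu) hw
      have h2 : u - w * s ≠ 0 := by
        intro h
        apply hs
        have : s = u / w := by
          field_simp
          linarith
        rw [this]
        exact div_mem hu hw
      have h3 : u ^ 2 - w ^ 2 * s ^ 2 ≠ 0 := by
        have := mul_ne_zero h1 h2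
        intro h
        apply this
        linear_combination h
      have h4 : u ^ 2 - w ^ 2 * s ^ 2 ∈ K :=
        sub_mem (pow_mem hu 2) (mul_mem (pow_mem hw 2) hs2)
      refine ⟨u / (u ^ 2 - w ^ 2 * s ^ 2), div_mem hu h4, -w / (u ^ 2 - w ^ 2 * s ^ 2),
        div_mem (neg_mem hw) h4, ?_⟩
      field_simp
      ring

theorem sqrt_mem {A : Set ι} {K : Subfield ℝ} (hK : Maximal (Good v A) K) {d : ℝ} (hd : d ∈ K)
    (hd0 : 0 ≤ d) : √d ∈ K := by
  by_contra hs
  have hs2 : √d ^ 2 ∈ K := by rwa [Real.sq_sqrt hd0]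
  have hle : K ≤ quad K √d hs hs2 := fun x hx => ⟨x, hx, 0, zero_mem _, by ring⟩
  have hsin : √d ∈ quad K √d hs hs2 := ⟨0, zero_mem _, 1, one_mem _, by ring⟩
  have hng : ¬ Good v A (quad K √d hs hs2) := fun hg => hs (hK.2 hg hle hsin)
  apply hng
  refine ⟨fun x hx => hle (hK.1.1 hx), ?_⟩
  intro j hj ⟨u, hu, w, hw, h⟩
  have h3 : v j ^ 3 ∈ K := hK.1.1 (Or.inr ⟨j, rfl⟩)
  have hsq := Real.sq_sqrt hd0
  set s := √d with hsdef
  have hex : v j ^ 3 = (u ^ 3 + 3 * u * w ^ 2 * d) + (3 * u ^ 2 * w + w ^ 3 * d) * s := by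
    rw [h, ← hsq]
    ring
  have hz : 3 * u ^ 2 * w + w ^ 3 * d = 0 := by
    by_contra hne
    apply hs
    have : s = (v j ^ 3 - (u ^ 3 + 3 * u * w ^ 2 * d)) / (3 * u ^ 2 * w + w ^ 3 * d) := by
      rw [eq_div_iff hne, hex]
      ring
    rw [this]
    have e3 : (3 : ℝ) ∈ K := by exact_mod_cast natCast_mem K 3
    refine div_mem (sub_mem h3 ?_) ?_
    · exact add_mem (pow_mem hu 3) (mul_mem (mul_mem (mul_mem e3 hu) (pow_mem hw 2)) hd)
    · exact add_mem (mul_mem (mul_mem e3 (pow_mem hu 2)) hw) (mul_mem (pow_mem hw 3) hd)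
  have hz2 : w * (3 * u ^ 2 + w ^ 2 * d) = 0 := by linear_combination hz
  rcases mul_eq_zero.1 hz2 with hw0 | hw0
  · apply hK.1.2 j hj
    rw [h, hw0]
    simpa using hu
  · have hw2 : 0 ≤ w ^ 2 * d := mul_nonneg (sq_nonneg _) hd0
    have hu2 : 0 ≤ 3 * u ^ 2 := by positivity
    have : w ^ 2 * d = 0 := by linarith
    rcases mul_eq_zero.1 this with h0 | h0
    · have hw0 : w = 0 := by simpa using h0
      apply hK.1.2 j hj
      rw [h, hw0]
      simpa using hu
    · apply hs
      have : s = 0 := by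
        rw [h0] at hsq
        simpa using hsq
      rw [this]
      exact zero_mem _

end Fields

/-! ## Part 4: orderings, definability, non-Borel cubes -/

/-- Every field ordering of `K` is archimedean. -/
def OnlyArchimedeanOrderings (K : Type) [Field K] : Prop :=
  ∀ _L : LinearOrder K, IsStrictOrderedRing K → ∀ x : K, ∃ n : ℕ, x < (n : K)

/-- `D` is definable in the ring `K` without parameters, in the language of rings
(which does not contain the order). -/
def DefinableInRing {K : Type} [Field K] (D : Set K) : Prop :=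
  let _ := FirstOrder.Ring.compatibleRingOfRing K
  (∅ : Set K).Definable₁ FirstOrder.Language.ring D

/-- The cubes of `K`. -/
def cubes (K : Type) [Field K] : Set K := {x | ∃ y, y ^ 3 = x}

theorem definable_cubes (K : Type) [Field K] : DefinableInRing (cubes K) := by
  unfold DefinableInRing
  let _ := FirstOrder.Ring.compatibleRingOfRing K
  show (∅ : Set K).Definable₁ FirstOrder.Language.ring (cubes K)
  unfold Set.Definable₁
  rw [Set.empty_definable_iff]
  let y : FirstOrder.Language.ring.Term (Fin 1 ⊕ Fin 1) := FirstOrder.Language.Term.var (Sum.inr 0)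
  let x : FirstOrder.Language.ring.Term (Fin 1 ⊕ Fin 1) := FirstOrder.Language.Term.var (Sum.inl 0)
  refine ⟨(FirstOrder.Language.Term.bdEqual (y * y * y) x).ex, ?_⟩
  ext w
  simp only [cubes, Set.mem_ofPred_eq, FirstOrder.Language.Formula.Realize,
    FirstOrder.Language.BoundedFormula.realize_ex,
    FirstOrder.Language.BoundedFormula.realize_bdEqual, FirstOrder.Ring.realize_mul, x, y,
    FirstOrder.Language.Term.realize_var, Sum.elim_inl, Sum.elim_inr]
  constructor
  · rintro ⟨z, hz⟩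
    exact ⟨z, by rw [← hz]; simp [Fin.snoc]; ring⟩
  · rintro ⟨z, hz⟩
    exact ⟨z, by rw [← hz]; simp [Fin.snoc]; ring⟩

theorem lt_of_sub_eq_sq {K : Type} [Field K] [LinearOrder K] [IsStrictOrderedRing K] {x y z : K}
    (hz : z ≠ 0) (h : y - x = z ^ 2) : x < y := by
  have : 0 < z ^ 2 := by positivity
  rw [← h] at this
  exact sub_pos.1 this

theorem only_arch {K : Subfield ℝ} (hK : ∀ d ∈ K, 0 ≤ d → √d ∈ K) :
    OnlyArchimedeanOrderings K := by
  intro L hL x
  obtain ⟨n, hn⟩ := exists_nat_gt (x : ℝ)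
  refine ⟨n, ?_⟩
  have h1 : (n : ℝ) - x ∈ K := sub_mem (natCast_mem K n) x.2
  have h2 : √((n : ℝ) - x) ∈ K := hK _ h1 (by linarith)
  have h3 : (n : K) - x = (⟨√((n : ℝ) - x), h2⟩ : K) ^ 2 := by
    apply Subtype.ext
    push_cast
    rw [Real.sq_sqrt (by linarith)]
  have h4 : (⟨√((n : ℝ) - x), h2⟩ : K) ≠ 0 := by
    intro h
    have := congrArg Subtype.val h
    simp only [ZeroMemClass.coe_zero] at this
    rw [Real.sqrt_eq_zero (by linarith)] at this
    linarith
  exact @lt_of_sub_eq_sq K _ L hL x n _ h4 h3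

theorem exists_not_borel {ι : Type} (v : ι → ℝ) (hc : 𝔠 ≤ #ι)
    (K : Set ι → Subfield ℝ) (hK : ∀ A i, v i ∈ K A ↔ i ∈ A) (hK3 : ∀ A i, v i ^ 3 ∈ K A) :
    ∃ A, ¬ @MeasurableSet (K A) (borel (K A)) (cubes (K A)) := by
  by_contra hcon
  push Not at hcon
  have h1 : ∀ A, ∃ B : Set ℝ, MeasurableSet B ∧ ((↑) : K A → ℝ) ⁻¹' B = cubes (K A) := by
    intro A
    have h2 := hcon A
    have h3 : borel (K A) = (borel ℝ).comap ((↑) : K A → ℝ) := borel_comap
    rw [h3, MeasurableSpace.measurableSet_comap] at h2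
    obtain ⟨B, hB, hB'⟩ := h2
    refine ⟨B, ?_, hB'⟩
    rwa [BorelSpace.measurable_eq (α := ℝ)]
  choose B hB hB' using h1
  have h2 : ∀ A i, v i ^ 3 ∈ B A ↔ i ∈ A := by
    intro A i
    have h3 : v i ^ 3 ∈ B A ↔ (⟨v i ^ 3, hK3 A i⟩ : K A) ∈ ((↑) : K A → ℝ) ⁻¹' (B A) := Iff.rfl
    rw [h3, hB' A, ← hK A i]
    constructor
    · rintro ⟨y, hy⟩
      have h4 := congrArg Subtype.val hy
      have h5 : (y : ℝ) ^ 3 = v i ^ 3 := by simpa using h4
      have h6 : (y : ℝ) = v i := (Odd.strictMono_pow (by decide : Odd 3)).injective h5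
      rw [← h6]
      exact y.2
    · intro hv
      exact ⟨⟨v i, hv⟩, Subtype.ext (by simp)⟩
  have hinj : Function.Injective (fun A : Set ι => (⟨B A, hB A⟩ : {s : Set ℝ | MeasurableSet s})) := by
    intro A A' h
    have h3 : B A = B A' := congrArg Subtype.val h
    ext i
    rw [← h2 A i, h3, h2 A' i]
  have h4 := Cardinal.mk_le_of_injective hinj
  rw [Cardinal.mk_set] at h4
  have h5 : #{s : Set ℝ | MeasurableSet s} ≤ 𝔠 := by
    have h6 : (inferInstance : MeasurableSpace ℝ) =
        MeasurableSpace.generateFrom (TopologicalSpace.countableBasis ℝ) := by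
      rw [BorelSpace.measurable_eq (α := ℝ)]
      exact (TopologicalSpace.isBasis_countableBasis ℝ).borel_eq_generateFrom
    have h7 := MeasurableSpace.cardinal_measurableSet_le_continuum
      (s := TopologicalSpace.countableBasis ℝ)
      ((TopologicalSpace.countable_countableBasis ℝ).le_aleph0.trans aleph0_le_continuum)
    rw [← h6] at h7
    exact h7
  have h6 : (2 : Cardinal) ^ #ι ≤ 𝔠 := h4.trans h5
  exact absurd (lt_of_lt_of_le (Cardinal.cantor #ι) (h6.trans hc)) (lt_irrefl _)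

theorem main : ∃ K : Subfield ℝ, (∀ d ∈ K, 0 ≤ d → √d ∈ K) ∧ OnlyArchimedeanOrderings K ∧
    ∃ D : Set K, DefinableInRing D ∧ ¬ @MeasurableSet K (borel K) D := by
  obtain ⟨s, hs⟩ := exists_isTranscendenceBasis ℚ ℝ
  have hc := card_basis _ hs
  choose K hK using exists_maximal ((↑) : s → ℝ) hs.1
  have h1 : ∀ A i, ((i : s) : ℝ) ∈ K A ↔ i ∈ A := by
    intro A i
    constructor
    · intro h
      by_contra hi
      exact (hK A).1.2 i hi h
    · intro h
      exact (hK A).1.1 (Or.inl ⟨i, h, rfl⟩)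
  have h3 : ∀ A i, ((i : s) : ℝ) ^ 3 ∈ K A := fun A i => (hK A).1.1 (Or.inr ⟨i, rfl⟩)
  obtain ⟨A, hA⟩ := exists_not_borel ((↑) : s → ℝ) hc K h1 h3
  exact ⟨K A, fun d hd hd0 => sqrt_mem _ (hK A) hd hd0, only_arch (fun d hd hd0 => sqrt_mem _ (hK A) hd hd0), cubes (K A),
    definable_cubes _, hA⟩

end Pool.Agent.Q302.NB
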